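import Pool.Agent.Helper28_LSP.KRB

/-!
# The kernel bound near the edge: one coordinate

The base point is `x = 8 r`, `r` small; on `[x - 2 r, x + 2 r] = [6 r, 10 r]` the sine is between `3 r`
and `10 r`, the cosine is at least `1 / 2`.
-/

set_option autoImplicit false

open MeasureTheory Set Complex

open scoped BigOperators

noncomputable section

namespace Pool.Agent.LE.H53K

open Pool.Agent.LE.CL Pool.Agent.LE.H28V

/-- the conditions -/
structure Be (x r : ℝ) : Prop where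
  hr : 0 < r
  hr2 : r ≤ 1 / 32
  hx : x = 8 * r

section be

variable {x r : ℝ} (hb : Be x r)
include hb

theorem Be.mem {θ : ℝ} (h : θ ∈ Icc (x - 2 * r) (x + 2 * r)) : 6 * r ≤ θ ∧ θ ≤ 10 * r := by
  have := hb.hx
  exact ⟨by linarith [h.1], by linarith [h.2]⟩

theorem Be.cos_ge {θ : ℝ} (h : θ ∈ Icc (x - 2 * r) (x + 2 * r)) : 1 / 2 ≤ Real.cos θ := by
  have h1 := hb.mem h
  have hr := hb.hr
  have hr2 := hb.hr2
  have h2 := Real.one_sub_sq_div_two_le_cos (x := θ)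
  have h3 : θ ^ 2 ≤ 1 := by nlinarith
  linarith

theorem Be.sin_ge {θ : ℝ} (h : θ ∈ Icc (x - 2 * r) (x + 2 * r)) : 3 * r ≤ Real.sin θ := by
  have h1 := hb.mem h
  have hr := hb.hr
  have hr2 := hb.hr2
  have hπ := Real.pi_gt_three
  have hπ4 := Real.pi_le_four
  have h2 : 2 / Real.pi * θ ≤ Real.sin θ := Real.mul_le_sin (by linarith) (by linarith)
  have h3 : 1 / 2 ≤ 2 / Real.pi := by
    rw [div_le_div_iff₀ (by norm_num) (by positivity)]
    linarith
  have h4 : 1 / 2 * θ ≤ 2 / Real.pi * θ := mul_le_mul_of_nonneg_right h3 (by linarith)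
  linarith

theorem Be.sin_le {θ : ℝ} (h : θ ∈ Icc (x - 2 * r) (x + 2 * r)) : Real.sin θ ≤ 10 * r := by
  have h1 := hb.mem h
  have hr := hb.hr
  have h2 := Real.sin_le (x := θ) (by linarith)
  linarith

theorem Be.bp : Bp x r (3 * r) := by
  have hr := hb.hr
  have hr2 := hb.hr2
  have hx := hb.hx
  have hπ := Real.pi_gt_three
  refine ⟨hr, by linarith, by linarith, by linarith, by linarith, by linarith, fun θ hθ => ?_,
    fun θ hθ => hb.sin_ge hθ⟩
  have := hb.cos_ge hθ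
  linarith

theorem Be.mp : Mp x r (3 * r) := ⟨hb.hr, by linarith [hb.hr2], by linarith [hb.hr],
  fun _ hθ => hb.sin_ge hθ⟩

/-- with a bound for the partial integrals of the phase factor -/
theorem Be.hh_le {t K : ℝ} {n : ℤ}
    (hK : ∀ y ∈ Icc (x - r) (x + r), ‖∫ θ in (x - r)..y, cexp (I * ph t n θ)‖ ≤ K) :
    ‖hh x r t n‖ ≤ 4 * r ^ 2 * K := by
  have hr := hb.hr
  have hab : x - r ≤ x + r := by linarith
  have hK0 : 0 ≤ K := (norm_nonneg _).trans (hK _ (left_mem_Icc.2 hab))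
  rw [hh_eq]
  refine (amp (g' := fun θ => ((-(2 * (θ - x)) : ℝ) : ℂ)) hab (cont_exp_ph t n).continuousOn
    (fun θ _ => aq_deriv x r θ)
    (Complex.continuous_ofReal.comp (by fun_prop)).continuousOn hK).trans ?_
  have e1 : ((r ^ 2 - (x + r - x) ^ 2 : ℝ) : ℂ) = 0 := by
    rw [show r ^ 2 - (x + r - x) ^ 2 = 0 by ring]
    simp
  rw [e1, norm_zero, zero_add]
  have e2 : ∫ θ in (x - r)..(x + r), ‖((-(2 * (θ - x)) : ℝ) : ℂ)‖ ≤
      ∫ _θ in (x - r)..(x + r), (2 * r : ℝ) := by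
    refine intervalIntegral.integral_mono_on hab ?_ ?_ ?_
    · exact (Complex.continuous_ofReal.comp (by fun_prop)).norm.intervalIntegrable _ _
    · exact continuous_const.intervalIntegrable _ _
    · intro θ hθ
      rw [Complex.norm_real, Real.norm_eq_abs, abs_neg, abs_mul, abs_two]
      have : |θ - x| ≤ r := abs_le.2 ⟨by linarith [hθ.1], by linarith [hθ.2]⟩
      linarith
  rw [intervalIntegral.integral_const, smul_eq_mul] at e2
  have e3 : (x + r - (x - r)) * (2 * r) = 4 * r ^ 2 := by ring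
  rw [e3] at e2
  calc K * _ ≤ K * (4 * r ^ 2) := mul_le_mul_of_nonneg_left e2 hK0
    _ = 4 * r ^ 2 * K := mul_comm _ _

theorem Be.sub {θ : ℝ} (h : θ ∈ Icc (x - r) (x + r)) : θ ∈ Icc (x - 2 * r) (x + 2 * r) :=
  ⟨by linarith [h.1, hb.hr], by linarith [h.2, hb.hr]⟩

/-- the partial integrals, second derivative -/
theorem Be.part {t : ℝ} (ht : 0 < t) (n : ℤ) {y : ℝ} (hy : y ∈ Icc (x - r) (x + r)) :
    ‖∫ θ in (x - r)..y, cexp (I * ph t n θ)‖ ≤ 8 / Real.sqrt t := by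
  exact vdc2 (F := ph t n) (F1 := fun θ => n + 2 * t * Real.sin θ)
    (F2 := fun θ => 2 * t * Real.cos θ) (a := x - r) (b := y) (mu := t) hy.1
    (fun θ _ => ph_deriv t n θ) (fun θ _ => ph_deriv2 t n θ)
    (Continuous.continuousOn (by fun_prop)) ht (fun θ hθ => by
      have h1 := hb.cos_ge (hb.sub ⟨hθ.1, hθ.2.trans hy.2⟩)
      nlinarith [mul_le_mul_of_nonneg_right h1 ht.le])

/-- (H1) -/
theorem Be.h1 {t : ℝ} (ht : 0 < t) (n : ℤ) : ‖hh x r t n‖ ≤ 32 * r ^ 2 / Real.sqrt t := by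
  refine (hb.hh_le fun _ hy => hb.part ht n hy).trans (le_of_eq ?_)
  ring

/-- the sine grows -/
theorem Be.sin_grow {p q : ℝ} (hp : p ∈ Icc (x - 2 * r) (x + 2 * r))
    (hq : q ∈ Icc (x - 2 * r) (x + 2 * r)) (hpq : p ≤ q) :
    1 / 2 * (q - p) ≤ Real.sin q - Real.sin p := by
  refine (convex_Icc (x - 2 * r) (x + 2 * r)).mul_sub_le_image_sub_of_le_deriv
    Real.continuous_sin.continuousOn Real.differentiable_sin.differentiableOn ?_ p hp q hq hpq
  intro z hz
  rw [Real.deriv_sin]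
  rw [interior_Icc] at hz
  exact hb.cos_ge (Ioo_subset_Icc_self hz)

/-- (H2) -/
theorem Be.h2 {t : ℝ} (ht : 0 < t) (n : ℤ) (hn : ¬ Rg x r n t) :
    ‖hh x r t n‖ ≤ 16 * r / t := by
  have hr := hb.hr
  have hl : x - 2 * r ∈ Icc (x - 2 * r) (x + 2 * r) := left_mem_Icc.2 (by linarith)
  have hrr : x + 2 * r ∈ Icc (x - 2 * r) (x + 2 * r) := right_mem_Icc.2 (by linarith)
  have key : ‖hh x r t n‖ ≤ 4 * r ^ 2 * (4 / (t * r)) := by
    refine hb.hh_le fun y hy => ?_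
    refine vdc1 (F := ph t n) (F1 := fun θ => n + 2 * t * Real.sin θ)
      (F2 := fun θ => 2 * t * Real.cos θ) hy.1
      (fun θ _ => ph_deriv t n θ) (fun θ _ => ph_deriv2 t n θ)
      (Continuous.continuousOn (by fun_prop)) (fun θ hθ => ?_) (by positivity) (fun θ hθ => ?_)
    · have h1 := hb.cos_ge (hb.sub ⟨hθ.1, hθ.2.trans hy.2⟩)
      exact mul_nonneg (by positivity) (by linarith)
    · have hθ' : θ ∈ Icc (x - r) (x + r) := ⟨hθ.1, hθ.2.trans hy.2⟩
      unfold Rg at hn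
      rcases not_and_or.1 hn with h | h
      · push Not at h
        have h1 := hb.sin_grow hl (hb.sub hθ') (hb.sub hθ').1
        have h2 : 1 / 2 * r ≤ Real.sin θ - Real.sin (x - 2 * r) := by linarith [hθ'.1]
        refine le_trans ?_ (le_abs_self _)
        nlinarith [mul_le_mul_of_nonneg_left h2 ht.le]
      · push Not at h
        have h1 := hb.sin_grow (hb.sub hθ') hrr (hb.sub hθ').2
        have h2 : 1 / 2 * r ≤ Real.sin (x + 2 * r) - Real.sin θ := by linarith [hθ'.2]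
        refine le_trans ?_ (neg_le_abs _)
        nlinarith [mul_le_mul_of_nonneg_left h2 ht.le]
  refine key.trans (le_of_eq ?_)
  field_simp
  ring

theorem Be.half {θ s : ℝ} (hθ : θ ∈ Icc (x - r) (x + r)) (hs : s ∈ Icc (x - 2 * r) (x + 2 * r)) :
    (θ + s) / 2 ∈ Icc (x - 2 * r) (x + 2 * r) := by
  have h := hb.sub hθ
  exact ⟨by linarith [h.1, hs.1], by linarith [h.2, hs.2]⟩

theorem Be.q_bound {θ s : ℝ} (hθ : θ ∈ Icc (x - r) (x + r))
    (hs : s ∈ Icc (x - 2 * r) (x + 2 * r)) :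
    |q1 x r s θ| ≤ 42 * r ^ 2 ∧ |q2 x r s θ| ≤ 50 * r := by
  have hr := hb.hr
  have hr2 := hb.hr2
  have hm := hb.half hθ hs
  have hc := hb.cos_ge hm
  have hc0 : 0 < Real.cos ((θ + s) / 2) := by linarith
  have hs1 := hb.sin_le hm
  have hs0 : 0 ≤ Real.sin ((θ + s) / 2) := by linarith [hb.sin_ge hm]
  have hθx : |θ - x| ≤ r := abs_le.2 ⟨by linarith [hθ.1], by linarith [hθ.2]⟩
  have ha1 : |(-(2 * (θ - x)))| ≤ 2 * r := by
    rw [abs_neg, abs_mul, abs_two]
    linarith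
  have ha0 : |r ^ 2 - (θ - x) ^ 2| ≤ r ^ 2 := by
    have h1 : (θ - x) ^ 2 ≤ r ^ 2 := sq_le_sq' (by linarith [(abs_le.1 hθx).1])
      (abs_le.1 hθx).2
    rw [abs_of_nonneg (by linarith)]
    linarith [sq_nonneg (θ - x)]
  have htan : |Real.tan ((θ + s) / 2)| ≤ 20 * r := by
    rw [Real.tan_eq_sin_div_cos, abs_div, abs_of_pos hc0, abs_of_nonneg hs0, div_le_iff₀ hc0]
    nlinarith
  have hsec : |1 / Real.cos ((θ + s) / 2) ^ 2 / 2| ≤ 2 := by
    rw [abs_of_nonneg (by positivity)]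
    have h1 : (1 / 2 : ℝ) ^ 2 ≤ Real.cos ((θ + s) / 2) ^ 2 :=
      pow_le_pow_left₀ (by norm_num) hc 2
    have h2 : 1 / Real.cos ((θ + s) / 2) ^ 2 ≤ 4 := by
      rw [div_le_iff₀ (by positivity)]
      linarith
    linarith
  have hsc : |Real.sin ((θ + s) / 2) / Real.cos ((θ + s) / 2) ^ 3 / 2| ≤ 40 * r := by
    rw [abs_div, abs_div, abs_two, abs_of_pos (show 0 < Real.cos ((θ + s) / 2) ^ 3 by positivity),
      abs_of_nonneg hs0]
    have h1 : (1 / 2 : ℝ) ^ 3 ≤ Real.cos ((θ + s) / 2) ^ 3 :=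
      pow_le_pow_left₀ (by norm_num) hc 3
    have h2 : Real.sin ((θ + s) / 2) / Real.cos ((θ + s) / 2) ^ 3 ≤ 80 * r := by
      rw [div_le_iff₀ (by positivity)]
      nlinarith
    linarith
  have mul1 : ∀ u v a b : ℝ, |u| ≤ a → |v| ≤ b → |u * v| ≤ a * b := by
    intro u v a b h1 h2
    rw [abs_mul]
    exact mul_le_mul h1 h2 (abs_nonneg _) ((abs_nonneg _).trans h1)
  have e1 := mul1 _ _ _ _ ha1 htan
  have e2 := mul1 _ _ _ _ ha0 hsec
  have e3 := mul1 _ _ _ _ ha1 hsec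
  have e4 := mul1 _ _ _ _ ha0 hsc
  have e5 : |(-2) * Real.tan ((θ + s) / 2)| ≤ 2 * (20 * r) := by
    rw [abs_mul, abs_neg, abs_two]
    linarith
  constructor
  · unfold q1
    refine (abs_add_le _ _).trans ?_
    nlinarith
  · unfold q2
    refine (abs_add_le _ _).trans ?_
    refine (add_le_add (abs_add_le _ _) (abs_add_le _ _)).trans ?_
    have e6 : r ^ 2 * (40 * r) ≤ 2 * r := by
      have : r ^ 2 ≤ 1 / 32 := by nlinarith
      nlinarith
    linarith

/-- the amplitude derivative is small -/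
theorem Be.amp_deriv {t s : ℝ} (ht : 0 < t) {n : ℤ} (hs : s ∈ Icc (x - 2 * r) (x + 2 * r))
    (hn : 2 * t * Real.sin s = -(n : ℝ)) :
    ‖hd x r t n + I * (2 * Real.cos s : ℝ) * hh x r t n‖ ≤ 1200 * r ^ 2 / (t * Real.sqrt t) := by
  have hr := hb.hr
  have hab : x - r ≤ x + r := by linarith
  have huI : uIcc (x - r) (x + r) = Icc (x - r) (x + r) := uIcc_of_le hab
  have hne : ∀ θ ∈ Icc (x - r) (x + r), Real.cos ((θ + s) / 2) ≠ 0 := fun θ hθ =>
    (show 0 < Real.cos ((θ + s) / 2) by linarith [hb.cos_ge (hb.half hθ hs)]).ne'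
  have hq0d : ∀ θ ∈ Icc (x - r) (x + r), HasDerivAt (fun θ => (q0 x r s θ : ℂ))
      (q1 x r s θ : ℂ) θ := fun θ hθ => (q0_deriv (hne θ hθ)).ofReal_comp
  have hq1d : ∀ θ ∈ Icc (x - r) (x + r), HasDerivAt (fun θ => (q1 x r s θ : ℂ))
      (q2 x r s θ : ℂ) θ := fun θ hθ => (q1_deriv (hne θ hθ)).ofReal_comp
  have hq1c : ContinuousOn (fun θ => (q1 x r s θ : ℂ)) (Icc (x - r) (x + r)) := fun θ hθ =>
    (hq1d θ hθ).continuousAt.continuousWithinAt
  have htanc : ContinuousOn (fun θ : ℝ => Real.tan ((θ + s) / 2)) (Icc (x - r) (x + r)) :=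
    fun θ hθ => (tan_deriv (hne θ hθ)).continuousAt.continuousWithinAt
  have hcc : ContinuousOn (fun θ : ℝ => Real.cos ((θ + s) / 2)) (Icc (x - r) (x + r)) :=
    Continuous.continuousOn (by fun_prop)
  have hsecc : ContinuousOn (fun θ : ℝ => 1 / Real.cos ((θ + s) / 2) ^ 2 / 2)
      (Icc (x - r) (x + r)) := fun θ hθ => (sec_deriv (hne θ hθ)).continuousAt.continuousWithinAt
  have hscc : ContinuousOn (fun θ : ℝ => Real.sin ((θ + s) / 2) / Real.cos ((θ + s) / 2) ^ 3 / 2)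
      (Icc (x - r) (x + r)) :=
    ((Continuous.continuousOn (by fun_prop)).div (hcc.pow 3)
      fun θ hθ => pow_ne_zero 3 (hne θ hθ)).div_const 2
  have hq2r : ContinuousOn (q2 x r s) (Icc (x - r) (x + r)) := by
    unfold q2
    refine ((continuousOn_const.mul htanc).add ((Continuous.continuousOn (by fun_prop)).mul
      hsecc)).add (((Continuous.continuousOn (by fun_prop)).mul hsecc).add
      ((Continuous.continuousOn (by fun_prop)).mul hscc))
  have hq2c : ContinuousOn (fun θ => (q2 x r s θ : ℂ)) (Icc (x - r) (x + r)) :=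
    Complex.continuous_ofReal.comp_continuousOn hq2r
  set v : ℝ → ℂ := fun θ => cexp (I * ph t n θ) with hv
  set v' : ℝ → ℂ := fun θ => cexp (I * ph t n θ) * (I * (n + 2 * t * Real.sin θ : ℝ)) with hv'
  have hvd : ∀ θ ∈ uIcc (x - r) (x + r), HasDerivAt v (v' θ) θ := fun θ _ =>
    ((ph_deriv t n θ).ofReal_comp.const_mul I).cexp
  have hv'c : Continuous v' := (cont_exp_ph t n).mul (continuous_const.mul
    (Complex.continuous_ofReal.comp (by fun_prop)))
  have key := intervalIntegral.integral_mul_deriv_eq_deriv_mul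
    (u := fun θ => (q0 x r s θ : ℂ)) (v := v) (u' := fun θ => (q1 x r s θ : ℂ)) (v' := v')
    (a := x - r) (b := x + r) (fun θ hθ => hq0d θ (huI ▸ hθ)) hvd
    (ContinuousOn.intervalIntegrable (huI ▸ hq1c)) (hv'c.intervalIntegrable _ _)
  have z1 : q0 x r s (x + r) = 0 := by
    unfold q0
    rw [show r ^ 2 - (x + r - x) ^ 2 = 0 by ring, zero_mul]
  have z2 : q0 x r s (x - r) = 0 := by
    unfold q0
    rw [show r ^ 2 - (x - r - x) ^ 2 = 0 by ring, zero_mul]
  rw [z1, z2, ofReal_zero, zero_mul, zero_mul, sub_zero, zero_sub] at key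
  have hc1 : Continuous fun θ : ℝ => ((r ^ 2 - (θ - x) ^ 2 : ℝ) : ℂ) * cexp (I * ph t n θ) :=
    (Complex.continuous_ofReal.comp (by fun_prop)).mul (cont_exp_ph t n)
  have hc2 : Continuous fun θ : ℝ => ((r ^ 2 - (θ - x) ^ 2 : ℝ) : ℂ) *
      (cexp (I * ph t n θ) * (I * (-(2 * Real.cos θ) : ℝ))) :=
    (Complex.continuous_ofReal.comp (by fun_prop)).mul ((cont_exp_ph t n).mul
      (continuous_const.mul (Complex.continuous_ofReal.comp (by fun_prop))))
  have hc3 : Continuous fun θ : ℝ => I * ((2 * Real.cos s : ℝ) : ℂ) *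
      (((r ^ 2 - (θ - x) ^ 2 : ℝ) : ℂ) * cexp (I * ph t n θ)) := continuous_const.mul hc1
  have e1 : hd x r t n + I * (2 * Real.cos s : ℝ) * hh x r t n =
      ((t⁻¹ : ℝ) : ℂ) * ∫ θ in (x - r)..(x + r), (q0 x r s θ : ℂ) * v' θ := by
    rw [hh_eq, hd, ← intervalIntegral.integral_const_mul, ← intervalIntegral.integral_add
      (hc2.intervalIntegrable _ _) (hc3.intervalIntegrable _ _),
      ← intervalIntegral.integral_const_mul]
    refine intervalIntegral.integral_congr fun θ hθ => ?_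
    rw [huI] at hθ
    have h1 := tan_id (hne θ hθ)
    have h2 : ((2 * Real.cos s - 2 * Real.cos θ : ℝ) : ℂ) = ((t⁻¹ * (Real.tan ((θ + s) / 2) *
        (n + 2 * t * Real.sin θ)) : ℝ) : ℂ) := by
      rw [h1]
      congr 1
      have h3 : (n : ℝ) + 2 * t * Real.sin θ = t * (2 * Real.sin θ - 2 * Real.sin s) := by
        rw [show (n : ℝ) = -(2 * t * Real.sin s) by rw [hn]; ring]
        ring
      rw [h3]
      field_simp
    change ((r ^ 2 - (θ - x) ^ 2 : ℝ) : ℂ) * (cexp (I * ph t n θ) * (I * (-(2 * Real.cos θ) : ℝ))) +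
      I * (2 * Real.cos s : ℝ) * (((r ^ 2 - (θ - x) ^ 2 : ℝ) : ℂ) * cexp (I * ph t n θ)) =
      ((t⁻¹ : ℝ) : ℂ) * (((r ^ 2 - (θ - x) ^ 2) * Real.tan ((θ + s) / 2) : ℝ) *
        (cexp (I * ph t n θ) * (I * (n + 2 * t * Real.sin θ : ℝ))))
    have h4 : ((r ^ 2 - (θ - x) ^ 2 : ℝ) : ℂ) * (cexp (I * ph t n θ) *
        (I * (-(2 * Real.cos θ) : ℝ))) +
      I * (2 * Real.cos s : ℝ) * (((r ^ 2 - (θ - x) ^ 2 : ℝ) : ℂ) * cexp (I * ph t n θ)) =
      ((r ^ 2 - (θ - x) ^ 2 : ℝ) : ℂ) * cexp (I * ph t n θ) * I *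
        ((2 * Real.cos s - 2 * Real.cos θ : ℝ) : ℂ) := by
      push_cast
      ring
    rw [h4, h2]
    push_cast
    ring
  rw [e1, key, norm_mul, Complex.norm_real, Real.norm_of_nonneg (by positivity), norm_neg]
  have h5 := amp (f := v) (g := fun θ => (q1 x r s θ : ℂ)) (g' := fun θ => (q2 x r s θ : ℂ)) hab
    (cont_exp_ph t n).continuousOn hq1d hq2c (fun y hy => hb.part ht n hy)
  have h6 : ‖((q1 x r s (x + r) : ℝ) : ℂ)‖ ≤ 42 * r ^ 2 := by
    rw [Complex.norm_real]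
    exact (hb.q_bound (right_mem_Icc.2 hab) hs).1
  have h7 : ∫ θ in (x - r)..(x + r), ‖(q2 x r s θ : ℂ)‖ ≤ 100 * r ^ 2 := by
    have h8 : ∫ θ in (x - r)..(x + r), ‖(q2 x r s θ : ℂ)‖ ≤
        ∫ _θ in (x - r)..(x + r), (50 * r : ℝ) := by
      refine intervalIntegral.integral_mono_on hab ?_ ?_ ?_
      · exact ContinuousOn.intervalIntegrable (huI ▸ hq2c.norm)
      · exact continuous_const.intervalIntegrable _ _
      · intro θ hθ
        rw [Complex.norm_real]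
        exact (hb.q_bound hθ hs).2
    rw [intervalIntegral.integral_const, smul_eq_mul] at h8
    refine h8.trans (le_of_eq ?_)
    ring
  have h8 : ‖∫ θ in (x - r)..(x + r), (q1 x r s θ : ℂ) * v θ‖ ≤
      8 / Real.sqrt t * (142 * r ^ 2) := by
    refine h5.trans (mul_le_mul_of_nonneg_left ?_ (by positivity))
    linarith
  have hst : 0 < Real.sqrt t := Real.sqrt_pos.2 ht
  calc t⁻¹ * ‖∫ θ in (x - r)..(x + r), (q1 x r s θ : ℂ) * v θ‖
      ≤ t⁻¹ * (8 / Real.sqrt t * (142 * r ^ 2)) :=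
        mul_le_mul_of_nonneg_left h8 (by positivity)
    _ = 1136 * r ^ 2 / (t * Real.sqrt t) := by
        field_simp
        ring
    _ ≤ 1200 * r ^ 2 / (t * Real.sqrt t) := by
        apply div_le_div_of_nonneg_right _ (by positivity)
        nlinarith [sq_nonneg r]

theorem Be.bm1_le {n : ℤ} {t : ℝ} (ht : 0 < t) (hR : Rg x r n t) :
    ‖bm1 x r n t‖ ≤ 1200 * r ^ 2 / (t * Real.sqrt t) := by
  unfold bm1
  rw [norm_mul, ← mul_neg, ← Complex.ofReal_neg, norm_exp_I, mul_one]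
  exact hb.amp_deriv ht (hb.bp.tha_mem ht hR) (hb.bp.sin_tha ht hR)

end be

end Pool.Agent.LE.H53K
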