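import Pool.Agent.Helper53_LIR.K1

/-!
# The kernel bound near the edge
-/

set_option autoImplicit false

open MeasureTheory Set Complex

open scoped BigOperators

noncomputable section

namespace Pool.Agent.LE.H53K

open Pool.Agent.LE.CL Pool.Agent.LE.H28V

section main

variable {d : ℕ} {x r : ℝ}

/-- the integrand -/
def gx (d : ℕ) (x r E : ℝ) (n : Fin d → ℤ) (t : ℝ) : ℂ :=
  cexp (I * (t * E : ℝ)) * ∏ j, hh x r t (n j)

theorem gx_cont (x r E : ℝ) (n : Fin d → ℤ) : Continuous (gx d x r E n) := by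
  unfold gx
  refine (Complex.continuous_exp.comp (continuous_const.mul
    (Complex.continuous_ofReal.comp (by fun_prop)))).mul ?_
  refine continuous_finsetProd _ fun j _ => ?_
  exact continuous_iff_continuousAt.2 fun t => (hh_deriv x r (n j) t).continuousAt

/-- off the region -/
theorem off (hb : Be x r) {T t : ℝ} (hT : 0 < T) (hTt : T ≤ t) {n : Fin d → ℤ}
    {E : ℝ} (h : ¬ ∀ j, Rg x r (n j) t) :
    ‖gx d x r E n t‖ ≤ 16 * r * (32 * r ^ 2) ^ (d - 1) / (T * Real.sqrt T ^ (d - 1)) := by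
  classical
  push Not at h
  obtain ⟨j₀, hj⟩ := h
  have hr := hb.hr
  have ht : 0 < t := hT.trans_le hTt
  have hsT : 0 < Real.sqrt T := Real.sqrt_pos.2 hT
  have hst : Real.sqrt T ≤ Real.sqrt t := Real.sqrt_le_sqrt hTt
  unfold gx
  rw [norm_mul, norm_exp_I, one_mul, norm_prod]
  rw [← Finset.mul_prod_erase Finset.univ (fun j => ‖hh x r t (n j)‖) (Finset.mem_univ j₀)]
  have h1 : ‖hh x r t (n j₀)‖ ≤ 16 * r / T := by
    refine (hb.h2 ht (n j₀) hj).trans ?_
    exact div_le_div_of_nonneg_left (by positivity) hT hTt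
  have h2 : ∏ j ∈ Finset.univ.erase j₀, ‖hh x r t (n j)‖ ≤
      (32 * r ^ 2 / Real.sqrt T) ^ (d - 1) := by
    have h3 := prod_le_pow (a := fun j => ‖hh x r t (n j)‖) (b := 32 * r ^ 2 / Real.sqrt T)
      (Finset.univ.erase j₀) (fun j => norm_nonneg _) fun j => by
        refine (hb.h1 ht (n j)).trans ?_
        exact div_le_div_of_nonneg_left (by positivity) hsT hst
    rwa [Finset.card_erase_of_mem (Finset.mem_univ _), Finset.card_univ, Fintype.card_fin] at h3
  calc _ ≤ 16 * r / T * (32 * r ^ 2 / Real.sqrt T) ^ (d - 1) :=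
        mul_le_mul h1 h2 (Finset.prod_nonneg fun j _ => norm_nonneg _) (by positivity)
    _ = _ := by
        rw [div_pow]
        field_simp

/-- in the region -/
theorem inn (hb : Be x r) (hd : 1 ≤ d)
    {T T1 T2 : ℝ} (hT : 0 < T) (hT1 : T ≤ T1) (h12 : T1 ≤ T2) (hT2 : T2 ≤ 2 * T)
    {n : Fin d → ℤ} {E : ℝ} (hR : ∀ t ∈ Icc T1 T2, ∀ j, Rg x r (n j) t) :
    ‖∫ t in T1..T2, gx d x r E n t‖ ≤
      8 * (1 + d) * (1200 * r ^ 2) ^ d / (3 * r) / Real.sqrt T ^ (d - 1) := by
  classical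
  have hr := hb.hr
  have hbp := hb.bp
  have hsT : 0 < Real.sqrt T := Real.sqrt_pos.2 hT
  have hss : Real.sqrt T * Real.sqrt T = T := Real.mul_self_sqrt hT.le
  have hpos : ∀ t ∈ Icc T1 T2, 0 < t := fun t ht => hT.trans_le (hT1.trans ht.1)
  have hTt : ∀ t ∈ Icc T1 T2, T ≤ t := fun t ht => hT1.trans ht.1
  have hst : ∀ t ∈ Icc T1 T2, Real.sqrt T ≤ Real.sqrt t := fun t ht =>
    Real.sqrt_le_sqrt (hTt t ht)
  set K := 1200 * r ^ 2 with hK
  have hK0 : 0 < K := by positivity
  have hK8 : 32 * r ^ 2 ≤ K := by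
    rw [hK]
    nlinarith [sq_nonneg r]
  -- the phase
  set F : ℝ → ℝ := fun t => t * E + ∑ j, p0 (n j) t with hF
  set F1 : ℝ → ℝ := fun t => E + ∑ j, -(2 * Real.cos (tha (n j) t)) with hF1
  set F2 : ℝ → ℝ := fun t => ∑ j, p2 (n j) t with hF2
  have hFd : ∀ t ∈ Icc T1 T2, HasDerivAt F (F1 t) t := by
    intro t ht
    have h1 : HasDerivAt (fun t => t * E) E t := by
      have := (hasDerivAt_id t).mul_const E
      rwa [one_mul] at this
    exact h1.add (HasDerivAt.fun_sum fun j _ => hbp.p0_deriv (hpos t ht) (hR t ht j))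
  have hF1d : ∀ t ∈ Icc T1 T2, HasDerivAt F1 (F2 t) t := by
    intro t ht
    exact (HasDerivAt.fun_sum fun j _ =>
      hbp.p1_deriv (hpos t ht) (hR t ht j)).const_add E
  have hF2c : ContinuousOn F2 (Icc T1 T2) := by
    intro t ht
    refine ContinuousAt.continuousWithinAt ?_
    refine tendsto_finsetSum _ fun j _ => ?_
    exact hbp.p2_cont (hpos t ht) (hR t ht j)
  have hF2v : ∀ t, F2 t = -(2 / t) * ∑ j,
      (Real.sin (tha (n j) t) ^ 2 / Real.cos (tha (n j) t)) := by
    intro t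
    simp only [hF2]
    rw [Finset.mul_sum]
    refine Finset.sum_congr rfl fun j _ => ?_
    unfold p2
    ring
  have hmem : ∀ t ∈ Icc T1 T2, ∀ j, tha (n j) t ∈ Icc (x - 2 * r) (x + 2 * r) :=
    fun t ht j => hbp.tha_mem (hpos t ht) (hR t ht j)
  have hlow : ∀ t ∈ Icc T1 T2, 9 * r ^ 2 ≤
      ∑ j, (Real.sin (tha (n j) t) ^ 2 / Real.cos (tha (n j) t)) := by
    intro t ht
    have h1 : ∀ j ∈ (Finset.univ : Finset (Fin d)), 9 * r ^ 2 ≤
        Real.sin (tha (n j) t) ^ 2 / Real.cos (tha (n j) t) := by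
      intro j _
      have hc := hb.cos_ge (hmem t ht j)
      have hc1 := Real.cos_le_one (tha (n j) t)
      have hs := hb.sin_ge (hmem t ht j)
      rw [le_div_iff₀ (by linarith)]
      have h2 : (3 * r) ^ 2 ≤ Real.sin (tha (n j) t) ^ 2 :=
        pow_le_pow_left₀ (by positivity) hs 2
      nlinarith [sq_nonneg r]
    have h2 := Finset.sum_le_sum h1
    rw [Finset.sum_const, Finset.card_univ, Fintype.card_fin, nsmul_eq_mul] at h2
    refine le_trans ?_ h2
    have h3 : (1 : ℝ) ≤ d := by exact_mod_cast hd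
    nlinarith [sq_nonneg r]
  have hpart : ∀ y ∈ Icc T1 T2, ‖∫ t in T1..y, cexp (I * F t)‖ ≤
      8 / Real.sqrt (9 * r ^ 2 / T) := by
    intro y hy
    have hsub : ∀ t ∈ Icc T1 y, t ∈ Icc T1 T2 := fun t ht => ⟨ht.1, ht.2.trans hy.2⟩
    refine vdc2n (F1 := F1) (F2 := F2) hy.1 (fun t ht => hFd t (hsub t ht))
      (fun t ht => hF1d t (hsub t ht)) (hF2c.mono hsub) (by positivity) fun t ht => ?_
    have ht0 := hpos t (hsub t ht)
    have h1 := hlow t (hsub t ht)
    have h2T : 9 * r ^ 2 / T ≤ 2 / t * (9 * r ^ 2) := by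
      rw [div_mul_eq_mul_div, div_le_div_iff₀ hT ht0]
      have : t ≤ 2 * T := (hsub t ht).2.trans hT2
      nlinarith [sq_nonneg r, mul_nonneg (sq_nonneg r) ht0.le]
    rw [hF2v]
    have h3 := mul_le_mul_of_nonneg_left h1 (by positivity : 0 ≤ 2 / t)
    rw [neg_mul]
    linarith
  -- the amplitude
  set G : ℝ → ℂ := fun t => ∏ j, bm x r (n j) t with hG
  set G1 : ℝ → ℂ := fun t => ∑ i, (∏ j ∈ Finset.univ.erase i, bm x r (n j) t) •
    bm1 x r (n i) t with hG1
  have hGd : ∀ t ∈ Icc T1 T2, HasDerivAt G (G1 t) t := by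
    intro t ht
    exact HasDerivAt.fun_finsetProd fun j _ => hbp.bm_deriv (hpos t ht) (hR t ht j)
  have hG1c : ContinuousOn G1 (Icc T1 T2) := by
    intro t ht
    refine ContinuousAt.continuousWithinAt ?_
    refine tendsto_finsetSum _ fun i _ => ?_
    refine Filter.Tendsto.smul ?_ ?_
    · refine tendsto_finsetProd _ fun j _ => ?_
      exact (hbp.bm_deriv (hpos t ht) (hR t ht j)).continuousAt
    · exact hbp.bm1_cont (hpos t ht) (hR t ht i)
  have hbm : ∀ t ∈ Icc T1 T2, ∀ j, ‖bm x r (n j) t‖ ≤ K / Real.sqrt T := by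
    intro t ht j
    rw [bm_norm]
    refine (hb.h1 (hpos t ht) (n j)).trans ?_
    exact div_le_div₀ hK0.le hK8 hsT (hst t ht)
  have hbm1 : ∀ t ∈ Icc T1 T2, ∀ j, ‖bm1 x r (n j) t‖ ≤ K / Real.sqrt T / T := by
    intro t ht j
    refine (hb.bm1_le (hpos t ht) (hR t ht j)).trans ?_
    have ht0 := hpos t ht
    rw [div_div]
    apply div_le_div_of_nonneg_left hK0.le (by positivity)
    rw [mul_comm (Real.sqrt T)]
    exact mul_le_mul (hTt t ht) (hst t ht) hsT.le ht0.le
  have hGn : ∀ t ∈ Icc T1 T2, ‖G t‖ ≤ (K / Real.sqrt T) ^ d := by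
    intro t ht
    simp only [hG]
    rw [norm_prod]
    have := prod_le_pow (a := fun j => ‖bm x r (n j) t‖) (b := K / Real.sqrt T)
      Finset.univ (fun j => norm_nonneg _) (hbm t ht)
    rwa [Finset.card_univ, Fintype.card_fin] at this
  have hG1n : ∀ t ∈ Icc T1 T2, ‖G1 t‖ ≤ d * (K / Real.sqrt T) ^ d / T := by
    intro t ht
    simp only [hG1]
    refine (norm_sum_le _ _).trans ?_
    have h1 : ∀ i ∈ (Finset.univ : Finset (Fin d)),
        ‖(∏ j ∈ Finset.univ.erase i, bm x r (n j) t) •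
          bm1 x r (n i) t‖ ≤ (K / Real.sqrt T) ^ d / T := by
      intro i _
      rw [norm_smul, norm_prod]
      have h2 := prod_le_pow (a := fun j => ‖bm x r (n j) t‖)
        (b := K / Real.sqrt T) (Finset.univ.erase i) (fun j => norm_nonneg _) (hbm t ht)
      rw [Finset.card_erase_of_mem (Finset.mem_univ _), Finset.card_univ, Fintype.card_fin] at h2
      calc _ ≤ (K / Real.sqrt T) ^ (d - 1) * (K / Real.sqrt T / T) :=
            mul_le_mul h2 (hbm1 t ht i) (norm_nonneg _) (by positivity)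
        _ = (K / Real.sqrt T) ^ (d - 1 + 1) / T := by rw [pow_succ]; ring
        _ = _ := by rw [Nat.sub_add_cancel hd]
    refine (Finset.sum_le_sum h1).trans (le_of_eq ?_)
    rw [Finset.sum_const, Finset.card_univ, Fintype.card_fin, nsmul_eq_mul]
    ring
  have hint : ∫ t in T1..T2, ‖G1 t‖ ≤ d * (K / Real.sqrt T) ^ d := by
    have h1 : ∫ t in T1..T2, ‖G1 t‖ ≤ ∫ _t in T1..T2, (d * (K / Real.sqrt T) ^ d / T : ℝ) := by
      refine intervalIntegral.integral_mono_on h12 ?_ ?_ hG1n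
      · refine ContinuousOn.intervalIntegrable ?_
        rw [uIcc_of_le h12]
        exact hG1c.norm
      · exact continuous_const.intervalIntegrable _ _
    rw [intervalIntegral.integral_const, smul_eq_mul] at h1
    refine h1.trans ?_
    have h2 : T2 - T1 ≤ T := by linarith
    have h3 : 0 ≤ d * (K / Real.sqrt T) ^ d / T := by positivity
    calc (T2 - T1) * (d * (K / Real.sqrt T) ^ d / T) ≤ T * (d * (K / Real.sqrt T) ^ d / T) :=
          mul_le_mul_of_nonneg_right h2 h3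
      _ = _ := by field_simp
  have hFc : ContinuousOn (fun t => cexp (I * F t)) (Icc T1 T2) := by
    refine Complex.continuous_exp.comp_continuousOn
      (continuousOn_const.mul (Complex.continuous_ofReal.comp_continuousOn ?_) :
        ContinuousOn (fun t => I * (F t : ℂ)) (Icc T1 T2))
    exact fun t ht => (hFd t ht).continuousAt.continuousWithinAt
  have key := amp (f := fun t => cexp (I * F t)) (g := G) (g' := G1) h12 hFc hGd hG1c hpart
  have e1 : ∀ t, gx d x r E n t = G t * cexp (I * F t) := by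
    intro t
    simp only [gx, hG, hF]
    rw [Finset.prod_congr rfl fun j _ => hh_bm x r (n j) t, Finset.prod_mul_distrib,
      ← Complex.exp_sum, ← mul_assoc, ← Complex.exp_add, mul_comm]
    congr 2
    push_cast
    rw [mul_add, Finset.mul_sum]
  simp only [e1]
  refine key.trans ?_
  have h5 : 8 / Real.sqrt (9 * r ^ 2 / T) = 8 * Real.sqrt T / (3 * r) := by
    rw [Real.sqrt_div (by positivity), show 9 * r ^ 2 = (3 * r) ^ 2 by ring,
      Real.sqrt_sq (by positivity)]
    field_simp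
  rw [h5]
  calc 8 * Real.sqrt T / (3 * r) * (‖G T2‖ + ∫ t in T1..T2, ‖G1 t‖)
      ≤ 8 * Real.sqrt T / (3 * r) * ((K / Real.sqrt T) ^ d + d * (K / Real.sqrt T) ^ d) :=
        mul_le_mul_of_nonneg_left (add_le_add (hGn T2 (right_mem_Icc.2 h12)) hint)
          (by positivity)
    _ = _ := by
        obtain ⟨k, rfl⟩ : ∃ k, d = k + 1 := ⟨d - 1, by omega⟩
        rw [Nat.add_sub_cancel, div_pow, pow_succ (Real.sqrt T)]
        field_simp

theorem krn (hb : Be x r) (hd : 1 ≤ d) {T : ℝ} (hT : 0 < T) (n : Fin d → ℤ) (E : ℝ) :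
    ‖∫ t in T..(2 * T), gx d x r E n t‖ ≤
      (16 * r * (32 * r ^ 2) ^ (d - 1) + 8 * (1 + d) * (1200 * r ^ 2) ^ d / (3 * r)) /
        Real.sqrt T ^ (d - 1) := by
  have hr := hb.hr
  have hbp := hb.bp
  have hsT : 0 < Real.sqrt T := Real.sqrt_pos.2 hT
  set B := 16 * r * (32 * r ^ 2) ^ (d - 1) / (T * Real.sqrt T ^ (d - 1)) with hB
  have hB0 : 0 < B := by positivity
  have hBT : B * T = 16 * r * (32 * r ^ 2) ^ (d - 1) / Real.sqrt T ^ (d - 1) := by
    rw [hB]
    field_simp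
  have hT2 : T ≤ 2 * T := by linarith
  have hfi : ∀ a b : ℝ, IntervalIntegrable (gx d x r E n) volume a b := fun a b =>
    (gx_cont x r E n).intervalIntegrable a b
  rw [add_div]
  set S : Set ℝ := {t | t ∈ Icc T (2 * T) ∧ ∀ j, Rg x r (n j) t} with hS
  rcases S.eq_empty_or_nonempty with h0 | hne
  · have h1 : ‖∫ t in T..(2 * T), gx d x r E n t‖ ≤ B * (2 * T - T) := by
      refine int_small hT2 fun t ht => ?_
      refine off hb hT ht.1.le fun h => ?_
      have : t ∈ S := ⟨Ioo_subset_Icc_self ht, h⟩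
      rw [h0] at this
      exact this
    have e : 2 * T - T = T := by ring
    rw [e, hBT] at h1
    refine h1.trans (le_add_of_nonneg_right ?_)
    positivity
  have hlo : 0 ≤ Real.sin (x - 2 * r) := by
    have := hb.sin_ge (left_mem_Icc.2 (show x - 2 * r ≤ x + 2 * r by linarith))
    linarith
  have hhi : 0 ≤ Real.sin (x + 2 * r) := by
    have := hb.sin_ge (right_mem_Icc.2 (show x - 2 * r ≤ x + 2 * r by linarith))
    linarith
  have hcl : IsClosed {t : ℝ | ∀ j, Rg x r (n j) t} := by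
    rw [Set.ofPred_forall]
    refine isClosed_iInter fun j => ?_
    have c1 : Continuous fun t : ℝ => 2 * t * Real.sin (x - 2 * r) := by fun_prop
    have c2 : Continuous fun t : ℝ => 2 * t * Real.sin (x + 2 * r) := by fun_prop
    exact (isClosed_le c1 continuous_const).inter (isClosed_le continuous_const c2)
  have hcomp : IsCompact S := isCompact_Icc.inter_right hcl
  obtain ⟨hT1a, hT1b⟩ := hcomp.sInf_mem hne
  obtain ⟨hT2a, hT2b⟩ := hcomp.sSup_mem hne
  set T1 := sInf S with hT1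
  set T2 := sSup S with hT2'
  have hle : T1 ≤ T2 :=
    (csInf_le hcomp.bddBelow hne.some_mem).trans (le_csSup hcomp.bddAbove hne.some_mem)
  have hbelow : ∀ t ∈ S, T1 ≤ t := fun t ht => csInf_le hcomp.bddBelow ht
  have habove : ∀ t ∈ S, t ≤ T2 := fun t ht => le_csSup hcomp.bddAbove ht
  have hsplit : ∫ t in T..(2 * T), gx d x r E n t = (∫ t in T..T1, gx d x r E n t) +
      (∫ t in T1..T2, gx d x r E n t) + ∫ t in T2..(2 * T), gx d x r E n t := by
    rw [intervalIntegral.integral_add_adjacent_intervals (hfi _ _) (hfi _ _),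
      intervalIntegral.integral_add_adjacent_intervals (hfi _ _) (hfi _ _)]
  have p1 : ‖∫ t in T..T1, gx d x r E n t‖ ≤ B * (T1 - T) := by
    refine int_small hT1a.1 fun t ht => ?_
    refine off hb hT ht.1.le fun h => ?_
    exact absurd (hbelow t ⟨⟨ht.1.le, ht.2.le.trans hT1a.2⟩, h⟩) (not_le.2 ht.2)
  have p3 : ‖∫ t in T2..(2 * T), gx d x r E n t‖ ≤ B * (2 * T - T2) := by
    refine int_small hT2a.2 fun t ht => ?_
    refine off hb hT (hT2a.1.trans ht.1.le) fun h => ?_
    exact absurd (habove t ⟨⟨hT2a.1.trans ht.1.le, ht.2.le⟩, h⟩) (not_le.2 ht.1)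
  have p2 := inn (E := E) hb hd hT hT1a.1 hle hT2a.2 (n := n) (fun t ht j =>
    rg_conv (hT1b j) (hT2b j) ht.1 ht.2 hlo hhi)
  rw [hsplit]
  calc _ ≤ ‖∫ t in T..T1, gx d x r E n t‖ + ‖∫ t in T1..T2, gx d x r E n t‖ +
      ‖∫ t in T2..(2 * T), gx d x r E n t‖ := norm_add₃_le
    _ ≤ B * (T1 - T) + 8 * (1 + d) * (1200 * r ^ 2) ^ d / (3 * r) / Real.sqrt T ^ (d - 1) +
        B * (2 * T - T2) := add_le_add (add_le_add p1 p2) p3
    _ ≤ B * T + 8 * (1 + d) * (1200 * r ^ 2) ^ d / (3 * r) / Real.sqrt T ^ (d - 1) := by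
        have : B * (T1 - T) + B * (2 * T - T2) ≤ B * T := by
          rw [← mul_add]
          apply mul_le_mul_of_nonneg_left _ hB0.le
          linarith
        linarith
    _ = _ := by rw [hBT]

end main

end Pool.Agent.LE.H53K
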