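import Pool.Agent.Helper53_LIR.K1

/-!
# The main term near the edge
-/

set_option autoImplicit false

open MeasureTheory Set

open scoped BigOperators

noncomputable section

namespace Pool.Agent.LE.H53K

open Pool.Agent.LE.CL Pool.Agent.LE.H28V

theorem aa_le2 {x r : ℝ} (θ : ℝ) : aa x r θ ≤ r ^ 2 := by
  unfold aa
  refine max_le ?_ (sq_nonneg _)
  nlinarith [sq_nonneg (θ - x)]

section one

variable {x r : ℝ} (hb : Be x r)
include hb

theorem Be.J_upper {T : ℝ} (hT : 0 < T) (b : ℝ) : J x r T b ≤ 8 * r / 3 := by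
  have hr := hb.hr
  have hab : x - r ≤ x + r := by linarith
  have h0 := hb.mp.upper hT b
  have h1 : J x r T b ≤ r ^ 2 * ∫ θ in (x - r)..(x + r), fj T (2 * Real.cos θ + b) := by
    rw [J_eq hr, ← intervalIntegral.integral_const_mul]
    refine intervalIntegral.integral_mono_on hab (J_intble hr hT b).intervalIntegrable ?_ ?_
    · refine IntervalIntegrable.const_mul ?_ _
      refine (intervalIntegrable_const (c := T)).mono_fun ?_ ?_
      · exact ((fj_meas T).comp (by fun_prop)).aestronglyMeasurable
      · refine Filter.Eventually.of_forall fun θ => ?_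
        change ‖fj T (2 * Real.cos θ + b)‖ ≤ ‖T‖
        rw [Real.norm_of_nonneg (fj_nonneg hT _), Real.norm_of_nonneg hT.le]
        exact fj_le hT _
    · intro θ _
      exact mul_le_mul_of_nonneg_right (aa_le2 θ) (fj_nonneg hT _)
  refine h1.trans ?_
  calc r ^ 2 * ∫ θ in (x - r)..(x + r), fj T (2 * Real.cos θ + b) ≤ r ^ 2 * (8 / (3 * r)) :=
        mul_le_mul_of_nonneg_left h0 (by positivity)
    _ = 8 * r / 3 := by
        field_simp

theorem Be.J_lower {T : ℝ} (hT : 1 / 5 ≤ T * r ^ 2) {b : ℝ}
    (hb2 : |2 * Real.cos x + b| ≤ 3 * r ^ 2) : r / 160 ≤ J x r T b := by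
  have hr := hb.hr
  have hm := hb.mp
  have hT0 : 0 < T := by
    by_contra h
    push Not at h
    nlinarith [sq_nonneg r]
  have hx : x ∈ Icc (x - 2 * r) (x + 2 * r) := ⟨by linarith, by linarith⟩
  have hp : x - r / 2 ∈ Icc (x - 2 * r) (x + 2 * r) := ⟨by linarith, by linarith⟩
  have hq : x + r / 2 ∈ Icc (x - 2 * r) (x + 2 * r) := ⟨by linarith, by linarith⟩
  have h1 := hm.mono hp hx (by linarith)
  have h2 := hm.mono hx hq (by linarith)
  have hb' := abs_le.1 hb2
  have hc : ContinuousOn (fun θ => 2 * Real.cos θ + b) (Icc (x - r / 2) (x + r / 2)) :=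
    Continuous.continuousOn (by fun_prop)
  obtain ⟨s, hs, hz⟩ := intermediate_value_Icc' (by linarith : x - r / 2 ≤ x + r / 2) hc
    (show (0 : ℝ) ∈ Icc (2 * Real.cos (x + r / 2) + b) (2 * Real.cos (x - r / 2) + b) from
      ⟨by nlinarith, by nlinarith⟩)
  simp only at hz
  set q := 1 / (20 * r * T) with hq'
  have hq0 : 0 < q := by positivity
  have hq1 : q ≤ r / 4 := by
    rw [hq', div_le_div_iff₀ (by positivity) (by norm_num)]
    nlinarith
  have hsm : s ∈ Icc (x - 2 * r) (x + 2 * r) := ⟨by linarith [hs.1], by linarith [hs.2]⟩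
  have hval : ∀ θ ∈ Icc (s - q) (s + q), θ ≠ s → T * r ^ 2 / 16 ≤
      aa x r θ * fj T (2 * Real.cos θ + b) := by
    intro θ hθ hne
    have hθm : θ ∈ Icc (x - 2 * r) (x + 2 * r) :=
      ⟨by linarith [hθ.1, hs.1], by linarith [hθ.2, hs.2]⟩
    have hθs : |θ - s| ≤ q := abs_le.2 ⟨by linarith [hθ.1], by linarith [hθ.2]⟩
    have hu : 2 * Real.cos θ + b ≠ 0 := by
      intro h0
      apply hne
      rcases le_total θ s with h | h
      · have := hm.mono hθm hsm h
        have h3 : s - θ ≤ 0 := by
          by_contra hcon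
          push Not at hcon
          have : 0 < 2 * (3 * r) * (s - θ) := by positivity
          linarith
        linarith
      · have := hm.mono hsm hθm h
        have h3 : θ - s ≤ 0 := by
          by_contra hcon
          push Not at hcon
          have : 0 < 2 * (3 * r) * (θ - s) := by positivity
          linarith
        linarith
    have hu2 : |2 * Real.cos θ + b| ≤ 1 / T := by
      -- the cosine is Lipschitz with the constant 10 r
      have hlip : ∀ p ∈ Icc (x - 2 * r) (x + 2 * r), ∀ w ∈ Icc (x - 2 * r) (x + 2 * r), p ≤ w →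
          Real.cos p - Real.cos w ≤ 10 * r * (w - p) := by
        intro p hp w hw hpw
        have h := (convex_Icc (x - 2 * r) (x + 2 * r)).image_sub_le_mul_sub_of_deriv_le
          (f := fun θ => -Real.cos θ) (C := 10 * r) Real.continuous_cos.neg.continuousOn
          Real.differentiable_cos.neg.differentiableOn ?_ p hp w hw hpw
        · linarith
        · intro z hz
          rw [interior_Icc] at hz
          have : deriv (fun θ => -Real.cos θ) z = Real.sin z := by
            have := (Real.hasDerivAt_cos z).fun_neg.deriv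
            rw [this, neg_neg]
          rw [this]
          exact hb.sin_le (Ioo_subset_Icc_self hz)
      have h3 : |Real.cos θ - Real.cos s| ≤ 10 * r * |θ - s| := by
        rcases le_total θ s with h | h
        · have h5 := hlip θ hθm s hsm h
          have h6 := hm.mono hθm hsm h
          have h7 : 0 ≤ 2 * (3 * r) * (s - θ) := mul_nonneg (by positivity) (by linarith)
          rw [abs_of_nonneg (by linarith), abs_of_nonpos (by linarith : θ - s ≤ 0)]
          linarith
        · have h5 := hlip s hsm θ hθm h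
          have h6 := hm.mono hsm hθm h
          have h7 : 0 ≤ 2 * (3 * r) * (θ - s) := mul_nonneg (by positivity) (by linarith)
          rw [abs_of_nonpos (by linarith), abs_of_nonneg (by linarith : 0 ≤ θ - s)]
          linarith
      have h4 : 2 * Real.cos θ + b = 2 * (Real.cos θ - Real.cos s) := by linarith
      rw [h4, abs_mul, abs_two]
      have h5 : 10 * r * |θ - s| ≤ 10 * r * q := mul_le_mul_of_nonneg_left hθs (by positivity)
      have h6 : 2 * (10 * r * q) = 1 / T := by
        rw [hq']
        field_simp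
        norm_num
      linarith
    have h5 := fj_ge hT0 hu hu2
    have h6 : r ^ 2 / 4 ≤ aa x r θ := by
      unfold aa
      refine le_trans ?_ (le_max_left _ _)
      have h7 : |θ - x| ≤ 3 * r / 4 := abs_le.2
        ⟨by linarith [hθ.1, hs.1], by linarith [hθ.2, hs.2]⟩
      have h8 : (θ - x) ^ 2 ≤ (3 * r / 4) ^ 2 := by
        rw [← sq_abs]
        exact pow_le_pow_left₀ (abs_nonneg _) h7 2
      nlinarith [mul_pos hr hr]
    calc T * r ^ 2 / 16 = r ^ 2 / 4 * (T / 4) := by ring
      _ ≤ _ := mul_le_mul h6 h5 (by positivity) (aa_nonneg _ _ _)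
  have h9 : ∫ θ in Icc (s - q) (s + q), (T * r ^ 2 / 16 : ℝ) ≤ J x r T b := by
    unfold J
    refine le_trans ?_ (setIntegral_le_integral (s := Icc (s - q) (s + q)) (J_intble hr hT0 b)
      (Filter.Eventually.of_forall fun θ => mul_nonneg (aa_nonneg _ _ _) (fj_nonneg hT0 _)))
    refine setIntegral_mono_ae_restrict ?_ (J_intble hr hT0 b).integrableOn ?_
    · exact integrableOn_const (by rw [Real.volume_Icc]; exact ENNReal.ofReal_ne_top)
    · have hne : ∀ᵐ θ : ℝ, θ ≠ s := by
        rw [ae_iff]
        simp only [not_not, Set.ofPred_eq_eq_singleton]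
        exact Real.volume_singleton
      filter_upwards [ae_restrict_mem measurableSet_Icc, ae_restrict_of_ae hne] with θ h1 h2
      exact hval θ h1 h2
  rw [setIntegral_const, Real.volume_real_Icc_of_le (by linarith), smul_eq_mul] at h9
  refine le_trans (le_of_eq ?_) h9
  rw [hq']
  field_simp
  norm_num

end one

section multi

variable {k : ℕ} {x r : ℝ} (hb : Be x r)
include hb

theorem MM_upper {T : ℝ} (hT : 0 < T) (E : ℝ) :
    MM (fun _ : Fin (k + 1) => x) r T E ≤ (2 * r ^ 3) ^ k * (8 * r / 3) := by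
  have hr := hb.hr
  rw [MM_eq _ hr hT E]
  have hi : Integrable fun θ : Fin k → ℝ => (∏ j, aa x r (θ j)) *
      J x r T (∑ j, 2 * Real.cos (θ j) - E) := by
    refine (prod_int (fun _ => x) hr).mul_bdd (c := 8 * r / 3) (J_meas _ _ _ hr hT E) ?_
    refine Filter.Eventually.of_forall fun θ => ?_
    rw [Real.norm_of_nonneg (J_nonneg hT _)]
    exact hb.J_upper hT _
  have h1 : ∫ θ : Fin k → ℝ, (∏ j, aa x r (θ j)) *
      J x r T (∑ j, 2 * Real.cos (θ j) - E) ≤
      ∫ θ : Fin k → ℝ, (∏ j, aa x r (θ j)) * (8 * r / 3) := by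
    refine integral_mono hi ((prod_int (fun _ => x) hr).mul_const _) fun θ => ?_
    exact mul_le_mul_of_nonneg_left (hb.J_upper hT _)
      (Finset.prod_nonneg fun j _ => aa_nonneg _ _ _)
  refine h1.trans ?_
  rw [integral_mul_const, integral_fintype_prod_volume_eq_prod (fun (_ : Fin k) θ => aa x r θ)]
  have h3 : ∫ θ, aa x r θ ≤ 2 * r ^ 3 := by
    have h3 : ∫ θ, aa x r θ = ∫ θ in Icc (x - r) (x + r), aa x r θ :=
      (setIntegral_eq_integral_of_forall_compl_eq_zero fun θ hθ => aa_off hr hθ).symm
    rw [h3]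
    have h4 : ∫ θ in Icc (x - r) (x + r), aa x r θ ≤
        ∫ _θ in Icc (x - r) (x + r), (r ^ 2 : ℝ) := by
      refine setIntegral_mono (aa_int hr).integrableOn ?_ fun θ => aa_le2 θ
      exact integrableOn_const (by rw [Real.volume_Icc]; exact ENNReal.ofReal_ne_top)
    rw [setIntegral_const, Real.volume_real_Icc_of_le (by linarith), smul_eq_mul] at h4
    refine h4.trans (le_of_eq ?_)
    ring
  have h4 : 0 ≤ ∫ θ, aa x r θ := integral_nonneg fun _ => aa_nonneg _ _ _
  rw [Finset.prod_const, Finset.card_univ, Fintype.card_fin]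
  exact mul_le_mul_of_nonneg_right (pow_le_pow_left₀ h4 h3 k) (by positivity)

theorem MM_lower {T : ℝ} (hT : 1 / 5 ≤ T * r ^ 2) {E : ℝ}
    (hE : 2 * (k + 1) * Real.cos x = E) :
    r / 160 * (3 * r / (20 * (k + 1)) * r ^ 2) ^ k ≤ MM (fun _ : Fin (k + 1) => x) r T E := by
  classical
  have hr := hb.hr
  have hT0 : 0 < T := by
    by_contra h
    push Not at h
    nlinarith [sq_nonneg r]
  rw [MM_eq _ hr hT0 E]
  set ρ := 3 * r / (20 * (k + 1)) with hρ
  have hk : (0 : ℝ) ≤ k := Nat.cast_nonneg k
  have hρ0 : 0 < ρ := by positivity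
  have hρk : 20 * k * ρ ≤ 3 * r := by
    have h1 : 20 * (k + 1) * ρ = 3 * r := by
      rw [hρ]
      field_simp
    nlinarith
  have hρr : ρ ≤ r / 2 := by
    rw [hρ, div_le_div_iff₀ (by positivity) (by norm_num)]
    nlinarith [mul_nonneg hk hr.le]
  have hρ2 : ρ ^ 2 ≤ r ^ 2 / 2 := by
    have := pow_le_pow_left₀ hρ0.le hρr 2
    nlinarith [mul_pos hr hr]
  set lo : Fin k → ℝ → ℝ := fun _ => (Icc (x - ρ) (x + ρ)).indicator
    fun _ => r ^ 2 / 2 with hlo
  have hloi : ∀ j, Integrable (lo j) := by
    intro j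
    refine (integrable_indicator_iff measurableSet_Icc).2 ?_
    exact integrableOn_const (by rw [Real.volume_Icc]; exact ENNReal.ofReal_ne_top)
  have hlov : ∀ j, ∫ θ, lo j θ = ρ * r ^ 2 := by
    intro j
    simp only [hlo]
    rw [integral_indicator measurableSet_Icc, setIntegral_const,
      Real.volume_real_Icc_of_le (by linarith), smul_eq_mul]
    ring
  have hlo0 : ∀ j θ, 0 ≤ lo j θ := fun j θ => indicator_nonneg (fun _ _ => by positivity) _
  have hi : Integrable fun θ : Fin k → ℝ => (∏ j, aa x r (θ j)) *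
      J x r T (∑ j, 2 * Real.cos (θ j) - E) := by
    refine (prod_int (fun _ => x) hr).mul_bdd (c := 8 * r / 3) (J_meas _ _ _ hr hT0 E) ?_
    refine Filter.Eventually.of_forall fun θ => ?_
    rw [Real.norm_of_nonneg (J_nonneg hT0 _)]
    exact hb.J_upper hT0 _
  have h1 : ∫ θ : Fin k → ℝ, (∏ j, lo j (θ j)) * (r / 160) ≤
      ∫ θ : Fin k → ℝ, (∏ j, aa x r (θ j)) *
        J x r T (∑ j, 2 * Real.cos (θ j) - E) := by
    refine integral_mono ((Integrable.fintype_prod hloi).mul_const _) hi fun θ => ?_
    change (∏ j, lo j (θ j)) * (r / 160) ≤ (∏ j, aa x r (θ j)) *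
        J x r T (∑ j, 2 * Real.cos (θ j) - E)
    by_cases h : ∀ j, θ j ∈ Icc (x - ρ) (x + ρ)
    · have h2 : ∀ j, |θ j - x| ≤ ρ := fun j =>
        abs_le.2 ⟨by linarith [(h j).1], by linarith [(h j).2]⟩
      refine mul_le_mul ?_ ?_ (by positivity) (Finset.prod_nonneg fun j _ => aa_nonneg _ _ _)
      · refine Finset.prod_le_prod (fun j _ => hlo0 j _) fun j _ => ?_
        simp only [hlo]
        rw [indicator_of_mem (h j)]
        exact aa_ge (h2 j) hρ2
      · refine hb.J_lower hT ?_
        have e : 2 * Real.cos x + (∑ j, 2 * Real.cos (θ j) - E) =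
            ∑ j, (2 * Real.cos (θ j) - 2 * Real.cos x) := by
          rw [← hE, Finset.sum_sub_distrib, Finset.sum_const, Finset.card_univ,
            Fintype.card_fin, nsmul_eq_mul]
          ring
        rw [e]
        refine (Finset.abs_sum_le_sum_abs _ _).trans ?_
        have h3 : ∀ j ∈ (Finset.univ : Finset (Fin k)),
            |2 * Real.cos (θ j) - 2 * Real.cos x| ≤ 20 * r * ρ := by
          intro j _
          have hxm : x ∈ Icc (x - 2 * r) (x + 2 * r) := ⟨by linarith, by linarith⟩
          have hjm : θ j ∈ Icc (x - 2 * r) (x + 2 * r) :=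
            ⟨by linarith [(h j).1], by linarith [(h j).2]⟩
          have hlip : ∀ p ∈ Icc (x - 2 * r) (x + 2 * r), ∀ w ∈ Icc (x - 2 * r) (x + 2 * r),
              p ≤ w → Real.cos p - Real.cos w ≤ 10 * r * (w - p) := by
            intro p hp w hw hpw
            have h := (convex_Icc (x - 2 * r) (x + 2 * r)).image_sub_le_mul_sub_of_deriv_le
              (f := fun θ => -Real.cos θ) (C := 10 * r) Real.continuous_cos.neg.continuousOn
              Real.differentiable_cos.neg.differentiableOn ?_ p hp w hw hpw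
            · linarith
            · intro z hz
              rw [interior_Icc] at hz
              have : deriv (fun θ => -Real.cos θ) z = Real.sin z := by
                have := (Real.hasDerivAt_cos z).fun_neg.deriv
                rw [this, neg_neg]
              rw [this]
              exact hb.sin_le (Ioo_subset_Icc_self hz)
          have h4 := abs_le.1 (h2 j)
          rcases le_total (θ j) x with h' | h'
          · have h5 := hlip (θ j) hjm x hxm h'
            have h6 := hb.mp.mono hjm hxm h'
            have h7 : 0 ≤ 2 * (3 * r) * (x - θ j) := mul_nonneg (by positivity) (by linarith)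
            rw [abs_of_nonneg (by linarith)]
            have h8 : 10 * r * (x - θ j) ≤ 10 * r * ρ :=
              mul_le_mul_of_nonneg_left (by linarith) (by positivity)
            linarith
          · have h5 := hlip x hxm (θ j) hjm h'
            have h6 := hb.mp.mono hxm hjm h'
            have h7 : 0 ≤ 2 * (3 * r) * (θ j - x) := mul_nonneg (by positivity) (by linarith)
            rw [abs_of_nonpos (by linarith)]
            have h8 : 10 * r * (θ j - x) ≤ 10 * r * ρ :=
              mul_le_mul_of_nonneg_left (by linarith) (by positivity)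
            linarith
        refine (Finset.sum_le_sum h3).trans ?_
        rw [Finset.sum_const, Finset.card_univ, Fintype.card_fin, nsmul_eq_mul]
        nlinarith
    · push Not at h
      obtain ⟨j, hj⟩ := h
      have h2 : ∏ j, lo j (θ j) = 0 := by
        refine Finset.prod_eq_zero (Finset.mem_univ j) ?_
        simp only [hlo]
        exact indicator_of_notMem hj _
      rw [h2, zero_mul]
      exact mul_nonneg (Finset.prod_nonneg fun j _ => aa_nonneg _ _ _) (J_nonneg hT0 _)
  refine le_trans (le_of_eq ?_) h1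
  rw [integral_mul_const, integral_fintype_prod_volume_eq_prod,
    Finset.prod_congr rfl fun j _ => hlov j, Finset.prod_const, Finset.card_univ,
    Fintype.card_fin]
  ring

/-- the main term -/
theorem mtm {c C : ℝ} (hc : c = (3 / (20 * ((k : ℝ) + 1))) ^ k / 160)
    (hC : C = 2 ^ k * (8 / 3))
    {K : ℕ} (hK : C / 2 ^ K < c / 2) {T E : ℝ} (hT : 1 / 5 ≤ T * r ^ 2)
    (hE : 2 * (k + 1) * Real.cos x = E) : ∃ T' : ℝ, T ≤ T' ∧ T' ≤ 2 ^ K * T ∧
      c / 2 * r ^ (3 * k + 1) ≤ ∫ θ : Fin (k + 1) → ℝ, (∏ j, aa x r (θ j)) *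
        wh T' (∑ j, 2 * Real.cos (θ j) - E) := by
  have hr := hb.hr
  have hT0 : 0 < T := by
    by_contra h
    push Not at h
    nlinarith [sq_nonneg r]
  set W := r ^ (3 * k + 1) with hW
  have hW0 : 0 < W := by positivity
  have hup : ∀ S : ℝ, 0 < S → MM (fun _ : Fin (k + 1) => x) r S E ≤ C * W := by
    intro S hS
    refine (MM_upper hb hS E).trans (le_of_eq ?_)
    rw [hC, hW, mul_pow, ← pow_mul, pow_succ]
    ring
  have hlo : ∀ S : ℝ, 1 / 5 ≤ S * r ^ 2 → c * W ≤ MM (fun _ : Fin (k + 1) => x) r S E := by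
    intro S hS
    refine le_trans (le_of_eq ?_) (MM_lower hb hS hE)
    have e1 : 3 * r / (20 * ((k : ℝ) + 1)) * r ^ 2 = 3 / (20 * ((k : ℝ) + 1)) * r ^ 3 := by
      ring
    rw [hc, hW, e1, mul_pow, ← pow_mul, pow_succ]
    ring
  by_contra hcon
  push Not at hcon
  have h2k : ∀ m : ℕ, (1 : ℝ) ≤ 2 ^ m := fun m => one_le_pow₀ (by norm_num)
  have key : ∀ m : ℕ, m ≤ K → MM (fun _ : Fin (k + 1) => x) r (2 ^ m * T) E ≤
      (C / 2 ^ m + c / 2) * W := by
    intro m
    induction m with
    | zero =>
      intro _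
      rw [pow_zero, one_mul, div_one]
      have h1 := hup T hT0
      have h2 : 0 ≤ c / 2 * W := by
        rw [hc]
        positivity
      linarith
    | succ m ih =>
      intro hm'
      have h1 := ih (by omega)
      have h2 := hcon (2 ^ m * T) (le_mul_of_one_le_left hT0.le (h2k m))
        (mul_le_mul_of_nonneg_right (pow_le_pow_right₀ (by norm_num) (by omega)) hT0.le)
      have h3 := MM_wh (fun _ : Fin (k + 1) => x) hr (show 0 < 2 ^ m * T by positivity) E
      rw [h3] at h2
      have e1 : 2 * (2 ^ m * T) = 2 ^ (m + 1) * T := by ring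
      rw [e1] at h2
      have e2 : C / 2 ^ (m + 1) = C / 2 ^ m / 2 := by
        rw [pow_succ, div_div _ ((2 : ℝ) ^ m)]
      rw [e2]
      linarith
  have h1 := key K le_rfl
  have h2 := hlo (2 ^ K * T) (by
    have := mul_le_mul_of_nonneg_right (h2k K) (show 0 ≤ T * r ^ 2 by positivity)
    linarith)
  have h3 : (C / 2 ^ K + c / 2) * W < c * W := mul_lt_mul_of_pos_right (by linarith) hW0
  linarith

end multi

end Pool.Agent.LE.H53K
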