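import Pool.Agent.Helper53_LIR.K2
import Pool.Agent.Helper53_LIR.K3

/-!
# The kernel bound near the edge, assembled
-/

set_option autoImplicit false

open MeasureTheory Set Complex

open scoped BigOperators

noncomputable section

namespace Pool.Agent.LE.H53K

open Pool.Agent.LE.CL Pool.Agent.LE.H28V

/-- the base point -/
theorem base {d : ℕ} (hd : 3 ≤ d) {l : ℝ} (hl : 0 < l) (hl1 : l ≤ 1 / (8 * d)) :
    ∃ x r : ℝ, Be x r ∧ 1 / (8 * d) * Real.sqrt l ≤ r ∧ 2 * r ≤ x ∧ d * (x + r) ^ 2 ≤ 2 * l ∧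
      2 * d * Real.cos x = 2 * d - l := by
  have hd0 : (3 : ℝ) ≤ d := by exact_mod_cast hd
  have hdp : (0 : ℝ) < d := by linarith
  have hld : l / (2 * d) ≤ 1 / 48 := by
    rw [div_le_iff₀ (by positivity)]
    have h1 : 1 / (8 * (d : ℝ)) ≤ 1 / 24 := by
      apply one_div_le_one_div_of_le (by norm_num)
      linarith
    nlinarith
  have hld0 : 0 < l / (2 * d) := by positivity
  set x := Real.arccos (1 - l / (2 * d)) with hx
  have hcos : Real.cos x = 1 - l / (2 * d) := Real.cos_arccos (by linarith) (by linarith)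
  have hx0 : 0 ≤ x := Real.arccos_nonneg _
  have hxπ : x ≤ Real.pi := Real.arccos_le_pi _
  have hlow : l / d ≤ x ^ 2 := by
    have h1 := Real.one_sub_sq_div_two_le_cos (x := x)
    have h2 : l / d = 2 * (l / (2 * d)) := by field_simp
    linarith
  have hld1 : 0 < l / d := by positivity
  have hxp : 0 < x := by
    rcases hx0.lt_or_eq with h | h
    · exact h
    · rw [← h] at hlow
      norm_num at hlow
      linarith
  have hup1 : x ^ 2 ≤ 1 / 16 := by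
    have h1 := Real.cos_le_one_sub_mul_cos_sq (x := x) (by rw [abs_of_nonneg hx0]; exact hxπ)
    have hπ := Real.pi_gt_three
    have hπ4 := Real.pi_lt_d2
    have h4 : 1 / 5 ≤ 2 / Real.pi ^ 2 := by
      rw [div_le_div_iff₀ (by norm_num) (by positivity)]
      nlinarith
    have h5 : 1 / 5 * x ^ 2 ≤ 2 / Real.pi ^ 2 * x ^ 2 :=
      mul_le_mul_of_nonneg_right h4 (sq_nonneg _)
    have h6 : l / (2 * d) ≤ 1 / 144 := by
      rw [div_le_iff₀ (by positivity)]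
      have h7 : l * (8 * d) ≤ 1 := by
        have := mul_le_mul_of_nonneg_right hl1 (show 0 ≤ 8 * (d : ℝ) by positivity)
        rwa [one_div_mul_cancel (by positivity)] at this
      nlinarith
    linarith
  have hx14 : x ≤ 1 / 4 := by nlinarith
  have hup2 : x ^ 2 ≤ 3 / 2 * (l / d) := by
    have h1 := Real.cos_bound (x := x) (by rw [abs_of_nonneg hx0]; linarith)
    rw [abs_of_nonneg hx0] at h1
    have h2 := (abs_le.1 h1).2
    have h3 : x ^ 4 = x ^ 2 * x ^ 2 := by ring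
    have h4 : x ^ 2 * x ^ 2 ≤ x ^ 2 * (1 / 16) :=
      mul_le_mul_of_nonneg_left hup1 (sq_nonneg _)
    have h2' : l / d = 2 * (l / (2 * d)) := by field_simp
    rw [hcos] at h2
    nlinarith
  refine ⟨x, x / 8, ⟨by positivity, by linarith, by ring⟩, ?_, by linarith, ?_, ?_⟩
  · have h1 : Real.sqrt l ≤ d * x := by
      refine Real.sqrt_le_iff.2 ⟨by positivity, ?_⟩
      have h2 : l ≤ d * x ^ 2 := by
        rw [div_le_iff₀ hdp] at hlow
        linarith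
      have h3 : d * x ^ 2 ≤ (d * x) ^ 2 := by
        rw [mul_pow]
        apply mul_le_mul_of_nonneg_right _ (sq_nonneg _)
        nlinarith
      linarith
    rw [div_mul_eq_mul_div, one_mul, div_le_div_iff₀ (by positivity) (by norm_num)]
    linarith
  · have h1 : d * x ^ 2 ≤ 3 / 2 * l := by
      have := mul_le_mul_of_nonneg_left hup2 hdp.le
      have h2 : d * (3 / 2 * (l / d)) = 3 / 2 * l := by field_simp
      linarith
    nlinarith
  · rw [hcos]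
    field_simp

/-- the kernel bound -/
theorem kb {d : ℕ} (hd : 3 ≤ d) {l x r : ℝ} (hl : 0 < l) (hb : Be x r)
    (hr : 1 / (8 * d) * Real.sqrt l ≤ r) {T : ℝ} (hT : 0 < T) (n : Fin d → ℤ) :
    ‖∫ t in T..(2 * T), cexp (I * ((t * (2 * d - l) : ℝ) : ℂ)) * ∏ j, hh x r t (n j)‖ ≤
      8 * d * (16 * 32 ^ (d - 1) + 8 * (1 + d) * 1200 ^ d / 3) * r ^ (2 * d) /
        (Real.sqrt T ^ (d - 1) * Real.sqrt l) := by
  have hr0 := hb.hr
  have hsl : 0 < Real.sqrt l := Real.sqrt_pos.2 hl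
  have hsT : 0 < Real.sqrt T := Real.sqrt_pos.2 hT
  have hd0 : (3 : ℝ) ≤ d := by exact_mod_cast hd
  refine (krn hb (by omega) hT n (2 * d - l)).trans ?_
  obtain ⟨k, rfl⟩ : ∃ k, d = k + 1 := ⟨d - 1, by omega⟩
  rw [Nat.add_sub_cancel]
  set A := 16 * (32 : ℝ) ^ k + 8 * (1 + ((k + 1 : ℕ) : ℝ)) * 1200 ^ (k + 1) / 3 with hA
  have hA0 : 0 < A := by positivity
  have e1 : 16 * r * (32 * r ^ 2) ^ k + 8 * (1 + ((k + 1 : ℕ) : ℝ)) *
      (1200 * r ^ 2) ^ (k + 1) / (3 * r) = A * r ^ (2 * (k + 1)) / r := by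
    rw [hA]
    have h1 : r ^ (2 * (k + 1)) = (r ^ 2) ^ k * r * r := by
      rw [pow_mul, pow_succ]
      ring
    rw [mul_pow, mul_pow, h1, pow_succ (r ^ 2)]
    field_simp
  rw [e1, div_div, div_le_div_iff₀ (by positivity) (by positivity)]
  have h2 : Real.sqrt l ≤ 8 * ((k + 1 : ℕ) : ℝ) * r := by
    rw [div_mul_eq_mul_div, one_mul, div_le_iff₀ (by positivity)] at hr
    linarith
  have h3 : 0 ≤ A * r ^ (2 * (k + 1)) * Real.sqrt T ^ k := by positivity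
  have h4 := mul_le_mul_of_nonneg_left h2 h3
  calc A * r ^ (2 * (k + 1)) * (Real.sqrt T ^ k * Real.sqrt l) =
        A * r ^ (2 * (k + 1)) * Real.sqrt T ^ k * Real.sqrt l := by ring
    _ ≤ A * r ^ (2 * (k + 1)) * Real.sqrt T ^ k * (8 * ((k + 1 : ℕ) : ℝ) * r) := h4
    _ = _ := by ring

/-- KBE -/
theorem kbe0 (d : ℕ) (hd : 3 ≤ d) :
    ∃ c₁ c C : ℝ, 0 < c₁ ∧ c₁ ≤ 1 ∧ 0 < c ∧ 1 ≤ C ∧ ∀ l : ℝ, 0 < l → l ≤ c₁ →
    ∃ th0 r : ℝ, c₁ * Real.sqrt l ≤ r ∧ 2 * r ≤ th0 ∧ d * (th0 + r) ^ 2 ≤ 2 * l ∧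
      (∀ T : ℝ, C ≤ T * l → ∀ n : Fin d → ℤ,
        ‖∫ t in T..(2 * T), Complex.exp (Complex.I * ((t * (2 * d - l) : ℝ) : ℂ)) *
          ∏ j, hh th0 r t (n j)‖ ≤ C * r ^ (2 * d) / (Real.sqrt T ^ (d - 1) * Real.sqrt l)) ∧
      ∀ T : ℝ, C ≤ T * l → ∃ T' : ℝ, T ≤ T' ∧ T' ≤ C * T ∧
        c * r ^ (2 * d) * l ^ (((d : ℝ) - 2) / 2) ≤
          ∫ θ : Fin d → ℝ, (∏ j, aa th0 r (θ j)) * wh T' (∑ j, 2 * Real.cos (θ j) - (2 * d - l))
    := by
  have hd0 : (3 : ℝ) ≤ d := by exact_mod_cast hd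
  have hdp : (0 : ℝ) < d := by linarith
  obtain ⟨k, hk⟩ : ∃ k, d = k + 1 := ⟨d - 1, by omega⟩
  obtain ⟨m, hm⟩ : ∃ m, k = m + 1 := ⟨k - 1, by omega⟩
  set c2 := (3 / (20 * ((k : ℝ) + 1))) ^ k / 160 with hc2
  have hc20 : 0 < c2 := by positivity
  obtain ⟨K, hK⟩ : ∃ K : ℕ, (2 ^ k * (8 / 3)) / 2 ^ K < c2 / 2 := by
    obtain ⟨K, hK⟩ := pow_unbounded_of_one_lt ((2 ^ k * (8 / 3)) / (c2 / 2))
      (one_lt_two (α := ℝ))
    refine ⟨K, ?_⟩
    rw [div_lt_iff₀ (by positivity)] at hK ⊢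
    linarith
  set C1 : ℝ := 8 * d * (16 * 32 ^ (d - 1) + 8 * (1 + d) * 1200 ^ d / 3) with hC1
  set c₁ : ℝ := 1 / (8 * d) with hc₁
  have hc₁0 : 0 < c₁ := by positivity
  have hc₁1 : c₁ ≤ 1 := by
    rw [hc₁, div_le_one (by positivity)]
    linarith
  refine ⟨c₁, c2 / 2 * c₁ ^ m, max C1 (max (2 ^ K) (64 * d ^ 2)), hc₁0, hc₁1, by positivity,
    ?_, fun l hl hl1 => ?_⟩
  · refine le_trans ?_ ((le_max_left _ _).trans (le_max_right _ _))
    exact one_le_pow₀ (by norm_num)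
  obtain ⟨x, r, hb, hr, h2r, hsq, hcos⟩ := base hd hl hl1
  have hr0 := hb.hr
  have hsl : 0 < Real.sqrt l := Real.sqrt_pos.2 hl
  refine ⟨x, r, hr, h2r, hsq, fun T hT n => ?_, fun T hT => ?_⟩
  · have hC0 : 0 < max C1 (max (2 ^ K) (64 * (d : ℝ) ^ 2)) :=
      lt_of_lt_of_le (by positivity) ((le_max_left _ _).trans (le_max_right _ _))
    have hT0 : 0 < T := by
      by_contra h
      push Not at h
      nlinarith [hC0]
    refine (kb hd hl hb hr hT0 n).trans ?_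
    apply div_le_div_of_nonneg_right _ (by positivity)
    exact mul_le_mul_of_nonneg_right (le_max_left _ _) (by positivity)
  · have hT64 : 64 * (d : ℝ) ^ 2 ≤ T * l :=
      ((le_max_right _ _).trans (le_max_right _ _)).trans hT
    have hT0 : 0 < T := by
      by_contra h
      push Not at h
      nlinarith [show 0 < 64 * (d : ℝ) ^ 2 by positivity]
    have hTr : 1 / 5 ≤ T * r ^ 2 := by
      have h1 : (c₁ * Real.sqrt l) ^ 2 ≤ r ^ 2 := pow_le_pow_left₀ (by positivity) hr 2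
      rw [mul_pow, Real.sq_sqrt hl.le] at h1
      have h2 : T * (c₁ ^ 2 * l) ≤ T * r ^ 2 := mul_le_mul_of_nonneg_left h1 hT0.le
      have h3 : T * (c₁ ^ 2 * l) = c₁ ^ 2 * (T * l) := by ring
      have h4 : c₁ ^ 2 * (64 * (d : ℝ) ^ 2) ≤ c₁ ^ 2 * (T * l) :=
        mul_le_mul_of_nonneg_left hT64 (by positivity)
      have h5 : c₁ ^ 2 * (64 * (d : ℝ) ^ 2) = 1 := by
        rw [hc₁]
        field_simp
        norm_num
      linarith
    subst hk
    obtain ⟨T', h1, h2, h3⟩ := mtm (k := k) (C := 2 ^ k * (8 / 3)) hb hc2 rfl hK hTr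
      (E := 2 * ((k + 1 : ℕ) : ℝ) - l) (by
        rw [← hcos]
        push_cast
        ring)
    refine ⟨T', h1, h2.trans ?_, le_trans ?_ h3⟩
    · exact mul_le_mul_of_nonneg_right ((le_max_left _ _).trans (le_max_right _ _)) hT0.le
    · have e1 : l ^ ((((k + 1 : ℕ) : ℝ) - 2) / 2) = Real.sqrt l ^ m := by
        have e2 : (((k + 1 : ℕ) : ℝ) - 2) / 2 = 1 / 2 * (m : ℝ) := by
          rw [hm]
          push_cast
          ring
        rw [e2, Real.rpow_mul hl.le, Real.rpow_natCast, Real.sqrt_eq_rpow]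
      rw [e1]
      have e3 : r ^ (3 * k + 1) = r ^ (2 * (k + 1)) * r ^ m := by
        rw [← pow_add]
        congr 1
        omega
      rw [e3]
      have h4 : (c₁ * Real.sqrt l) ^ m ≤ r ^ m := pow_le_pow_left₀ (by positivity) hr m
      rw [mul_pow] at h4
      calc c2 / 2 * c₁ ^ m * r ^ (2 * (k + 1)) * Real.sqrt l ^ m =
            c2 / 2 * r ^ (2 * (k + 1)) * (c₁ ^ m * Real.sqrt l ^ m) := by ring
        _ ≤ c2 / 2 * r ^ (2 * (k + 1)) * r ^ m :=
            mul_le_mul_of_nonneg_left h4 (by positivity)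
        _ = _ := by ring

end Pool.Agent.LE.H53K
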