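import Pool.Agent.LE.StmtsJ
import Pool.Agent.Helper53_LIR.K4

/-!
# KBE: the kernel bound near the edge
-/

set_option autoImplicit false

namespace Pool.Agent.LE.IR.H53

/-- KBE -/
theorem kbe : KbeStmt := fun d hd => Pool.Agent.LE.H53K.kbe0 d hd

end Pool.Agent.LE.IR.H53
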